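import Pool.Agent.Helper29.UD.Chain

/-!
# The determinant of a word at a complex parameter
-/

set_option autoImplicit false

namespace Pool.Agent.Helper29.UD

open Complex ComplexConjugate Matrix
open scoped ComplexOrder
open Pool.Agent.Helper99.ZB (del ell Bm W)

theorem alpha_pos {h c : ℝ} (hc : |c| < h) : 0 < h + √(h ^ 2 - c ^ 2) := by
  have : 0 < h := lt_of_le_of_lt (abs_nonneg c) hc
  positivity

theorem alpha_eq {h c : ℝ} (hc : |c| < h) :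
    (h + √(h ^ 2 - c ^ 2)) ^ 2 + c ^ 2 = 2 * h * (h + √(h ^ 2 - c ^ 2)) := by
  have h1 : 0 ≤ h ^ 2 - c ^ 2 := by
    have := abs_nonneg c
    have h2 : c ^ 2 = |c| ^ 2 := (sq_abs c).symm
    nlinarith
  have h2 := Real.sq_sqrt h1
  nlinarith

theorem Qm_posDef {h c : ℝ} (hc : |c| < h) (n : ℕ) : (Qm h c n).PosDef := by
  refine PosDef.of_dotProduct_mulVec_pos (Qm_herm h c n) fun v hv => ?_
  rw [eq_qf (Qm_herm h c n)]
  obtain ⟨h', hh'⟩ : ∃ h', h' = (h + |c|) / 2 := ⟨_, rfl⟩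
  have hc' : |c| < h' := by rw [hh']; linarith
  have hlt : h' < h := by rw [hh']; linarith
  have h1 := qf_nonneg' (alpha_pos hc') (alpha_eq hc') v
  have h2 : qf (Qm h c n) v = qf (Qm h' c n) v + 2 * (h - h') * ∑ i, ‖v i‖ ^ 2 := by
    rw [qf_eq, qf_eq, Finset.sum_range, Finset.sum_range, Finset.mul_sum, ← Finset.sum_add_distrib]
    refine Finset.sum_congr rfl fun i _ => ?_
    unfold F
    rw [ext_succ]
    ring
  have h3 : 0 < ∑ i, ‖v i‖ ^ 2 := by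
    obtain ⟨i, hi⟩ := Function.ne_iff.1 hv
    refine Finset.sum_pos' (fun j _ => by positivity) ⟨i, Finset.mem_univ _, ?_⟩
    have := norm_pos_iff.2 hi
    positivity
  have h4 : 0 < qf (Qm h c n) v := by
    rw [h2]
    have : 0 < 2 * (h - h') * ∑ i, ‖v i‖ ^ 2 := mul_pos (by linarith) h3
    linarith
  exact_mod_cast h4

theorem ell_eq (s : ℂ) (n a : ℕ) : ell s n a = (1 + s ^ 2) • del n a - s • nb n a := by
  ext j
  unfold ell del nb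
  simp only [Pi.sub_apply, Pi.smul_apply, smul_eq_mul]
  by_cases h1 : (j : ℕ) = a
  · rw [if_pos h1, if_pos h1, if_neg (by omega)]
    ring
  · rw [if_neg h1, if_neg h1]
    by_cases h2 : (j : ℕ) + 1 = a ∨ a + 1 = (j : ℕ)
    · rw [if_pos h2, if_pos h2]
      ring
    · rw [if_neg h2, if_neg h2]
      ring

theorem Bm_mulVec {s : ℂ} {n a : ℕ} (v : Fin n → ℂ) : Bm s n a *ᵥ v = v + (-(ell s n a ⬝ᵥ v)) • del n a := by
  unfold Bm Pool.Agent.Helper99.ZB.Pm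
  rw [sub_mulVec, one_mulVec, vecMulVec_mulVec, neg_smul, sub_eq_add_neg]
  congr 2
  ext i
  simp [mul_comm]

theorem qf_add_vec {ι : Type*} [Fintype ι] {Q : Matrix ι ι ℂ} (hQ : Q.IsHermitian) (v w : ι → ℂ) :
    qf Q (v + w) = qf Q v + 2 * (star w ⬝ᵥ (Q *ᵥ v)).re + qf Q w := by
  unfold qf
  rw [mulVec_add, star_add, add_dotProduct, dotProduct_add, dotProduct_add, Complex.add_re, Complex.add_re, Complex.add_re]
  have e : (star v ⬝ᵥ (Q *ᵥ w)).re = (star w ⬝ᵥ (Q *ᵥ v)).re := by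
    have h1 : star v ⬝ᵥ (Q *ᵥ w) = star (star w ⬝ᵥ (Q *ᵥ v)) := by
      rw [star_dotProduct, star_mulVec, ← dotProduct_mulVec, hQ.eq]
    rw [h1, Complex.star_def, Complex.conj_re]
  rw [e]
  ring

/-- the quadratic form of the pair `(x, y)` -/
noncomputable def q2 (h c α : ℝ) (x y : ℂ) : ℝ := 2 * h * ‖x‖ ^ 2 - 2 * c * (conj x * y).re + α / 2 * ‖y‖ ^ 2

theorem norm_sq_add (a b : ℂ) : ‖a + b‖ ^ 2 = ‖a‖ ^ 2 + 2 * (conj a * b).re + ‖b‖ ^ 2 := by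
  rw [← Complex.normSq_eq_norm_sq, Complex.normSq_add, Complex.normSq_eq_norm_sq, Complex.normSq_eq_norm_sq]
  have : (a * conj b).re = (conj a * b).re := by
    rw [← Complex.conj_re]
    congr 1
    rw [map_mul, Complex.conj_conj]
  rw [this]
  ring

/-- change of the form under a letter -/
theorem qf_letter (h c α : ℝ) {s : ℂ} {n a : ℕ} (ha : a < n) (v : Fin n → ℂ) {x y : ℂ} (hx : x = ext n v (a + 1))
    (hy : y = ext n v a + ext n v (a + 2)) :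
    qf (Qm h c n) (Bm s n a *ᵥ v) = qf (Qm h c n) v + q2 h c α (-s ^ 2 * x + s * y) y - q2 h c α x y := by
  obtain ⟨i, hi⟩ : ∃ i : Fin n, (i : ℕ) = a := ⟨⟨a, ha⟩, rfl⟩
  have hvi : v i = x := by
    rw [hx, ← hi, ext_succ]
  have hell : ell s n a ⬝ᵥ v = (1 + s ^ 2) * x - s * y := by
    rw [ell_eq, sub_dotProduct, smul_dotProduct, smul_dotProduct, ← hi, del_dot, nb_dot i.2, hvi, hi, ← hy, smul_eq_mul,
      smul_eq_mul]
  obtain ⟨d, hd⟩ : ∃ d, d = -((1 + s ^ 2) * x - s * y) := ⟨_, rfl⟩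
  rw [Bm_mulVec, hell, ← hd, qf_add_vec (Qm_herm h c n)]
  have e1 : star (d • del n a) ⬝ᵥ (Qm h c n *ᵥ v) = conj d * (((2 * h : ℝ) : ℂ) * x - (c : ℂ) * y) := by
    have e2 : star (d • del n a : Fin n → ℂ) = conj d • del n a := by
      ext j
      unfold del
      simp only [Pi.star_apply, Pi.smul_apply, smul_eq_mul, star_mul']
      by_cases hj : (j : ℕ) = a
      · simp [hj]
      · simp [hj]
    rw [e2, smul_dotProduct, ← hi, del_dot, Qm_mulVec, hvi, hi, ← hy, smul_eq_mul]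
  have e3 : qf (Qm h c n) (d • del n a) = 2 * h * ‖d‖ ^ 2 := by
    have e4 : (Qm h c n *ᵥ (d • del n a)) i = ((2 * h : ℝ) : ℂ) * d := by
      rw [Qm_mulVec]
      have f1 : (d • del n a : Fin n → ℂ) i = d := by
        simp [del, hi]
      have f2 : ext n (d • del n a) i = 0 := by
        unfold ext
        split_ifs with h1
        · have : ¬ ((i : ℕ) - 1 = a) := by omega
          simp [del, this]
        · rfl
      have f3 : ext n (d • del n a) (i + 2) = 0 := by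
        unfold ext
        split_ifs with h1
        · have : ¬ ((i : ℕ) + 1 = a) := by omega
          simp [del, this]
        · rfl
      rw [f1, f2, f3]
      ring
    have e2 : star (d • del n a : Fin n → ℂ) = conj d • del n a := by
      ext j
      unfold del
      simp only [Pi.star_apply, Pi.smul_apply, smul_eq_mul, star_mul']
      by_cases hj : (j : ℕ) = a
      · simp [hj]
      · simp [hj]
    unfold qf
    rw [e2, smul_dotProduct]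
    have e5 : del n a ⬝ᵥ (Qm h c n *ᵥ (d • del n a)) = (Qm h c n *ᵥ (d • del n a)) i := by
      conv_lhs => rw [show del n a = del n (i : ℕ) by rw [hi]]
      rw [del_dot, hi]
    rw [e5, e4, smul_eq_mul]
    have e6 : conj d * (((2 * h : ℝ) : ℂ) * d) = ((2 * h * ‖d‖ ^ 2 : ℝ) : ℂ) := by
      rw [Complex.ofReal_mul (2 * h), ← Complex.normSq_eq_norm_sq, ← Complex.mul_conj]
      ring
    rw [e6, Complex.ofReal_re]
  rw [e1, e3]
  have e7 : -s ^ 2 * x + s * y = x + d := by rw [hd]; ring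
  unfold q2
  rw [e7, norm_sq_add x d]
  have e8 : (conj (x + d) * y).re = (conj x * y).re + (conj d * y).re := by
    rw [map_add, add_mul, Complex.add_re]
  have e9 : (conj d * (((2 * h : ℝ) : ℂ) * x - (c : ℂ) * y)).re = 2 * h * (conj x * d).re - c * (conj d * y).re := by
    have f1 : conj d * (((2 * h : ℝ) : ℂ) * x - (c : ℂ) * y) =
        ((2 * h : ℝ) : ℂ) * (conj d * x) - (c : ℂ) * (conj d * y) := by ring
    rw [f1, Complex.sub_re, Complex.re_ofReal_mul, Complex.re_ofReal_mul]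
    have f2 : (conj d * x).re = (conj x * d).re := by
      rw [← Complex.conj_re]
      congr 1
      rw [map_mul, Complex.conj_conj, mul_comm]
    rw [f2]
  rw [e8, e9]
  ring

theorem sqrt_facts {h c : ℝ} (hc : |c| < h) : ∃ r : ℝ, 0 < r ∧ r ^ 2 = h ^ 2 - c ^ 2 ∧ r < h + r := by
  have h1 : 0 < h ^ 2 - c ^ 2 := by
    have := abs_nonneg c
    have h2 : c ^ 2 = |c| ^ 2 := (sq_abs c).symm
    nlinarith
  refine ⟨√(h ^ 2 - c ^ 2), Real.sqrt_pos.2 h1, Real.sq_sqrt h1.le, ?_⟩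
  have := abs_nonneg c
  linarith

theorem cs2 {p₁ p₂ : ℂ} (hp : ‖p₁‖ ^ 2 + ‖p₂‖ ^ 2 ≤ 1) (X Y : ℂ) : ‖p₁ * X + p₂ * Y‖ ^ 2 ≤ ‖X‖ ^ 2 + ‖Y‖ ^ 2 := by
  have h3 : ‖p₁ * X + p₂ * Y‖ ≤ ‖p₁‖ * ‖X‖ + ‖p₂‖ * ‖Y‖ := by
    refine (norm_add_le _ _).trans (le_of_eq ?_)
    rw [norm_mul, norm_mul]
  have h4 : ‖p₁ * X + p₂ * Y‖ ^ 2 ≤ (‖p₁‖ * ‖X‖ + ‖p₂‖ * ‖Y‖) ^ 2 := pow_le_pow_left₀ (norm_nonneg _) h3 2
  refine h4.trans ?_
  have h5 : (‖p₁‖ * ‖X‖ + ‖p₂‖ * ‖Y‖) ^ 2 ≤ (‖p₁‖ ^ 2 + ‖p₂‖ ^ 2) * (‖X‖ ^ 2 + ‖Y‖ ^ 2) := by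
    nlinarith [sq_nonneg (‖p₁‖ * ‖Y‖ - ‖p₂‖ * ‖X‖)]
  refine h5.trans ?_
  have h6 : 0 ≤ ‖X‖ ^ 2 + ‖Y‖ ^ 2 := by positivity
  calc (‖p₁‖ ^ 2 + ‖p₂‖ ^ 2) * (‖X‖ ^ 2 + ‖Y‖ ^ 2) ≤ 1 * (‖X‖ ^ 2 + ‖Y‖ ^ 2) := mul_le_mul_of_nonneg_right hp h6
    _ = _ := one_mul _

/-- **One letter.** -/
theorem letter {s : ℂ} (h0 : s ≠ 0) (h1 : ‖s‖ < 1) {S : ℝ} (hS : 1 ≤ S)
    (hS2 : S * (1 + ‖s‖ ^ 4 + 2 * s.im ^ 2) ≤ S ^ 2 + ‖s‖ ^ 4) {n a : ℕ} (ha : a < n) :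
    ∃ l : Fin n → ℂ, (∀ v, qf (Qm ((‖s‖⁻¹ + ‖s‖) / 2) (s.re / ‖s‖) n) (Bm s n a *ᵥ v) ≤
        qf (Qm ((‖s‖⁻¹ + ‖s‖) / 2) (s.re / ‖s‖) n) v + (S - 1) * ‖l ⬝ᵥ v‖ ^ 2) ∧
      ∀ v, ‖l ⬝ᵥ v‖ ^ 2 ≤ qf (Qm ((‖s‖⁻¹ + ‖s‖) / 2) (s.re / ‖s‖) n) v := by
  obtain ⟨m, hm⟩ : ∃ m, m = ‖s‖ := ⟨_, rfl⟩
  have hm0 : 0 < m := by rw [hm]; exact norm_pos_iff.2 h0
  obtain ⟨h, hh⟩ : ∃ h, h = (‖s‖⁻¹ + ‖s‖) / 2 := ⟨_, rfl⟩
  obtain ⟨c, hcd⟩ : ∃ c, c = s.re / ‖s‖ := ⟨_, rfl⟩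
  rw [← hh, ← hcd]
  rw [← hm] at hh hcd h1
  have hh1 : 1 < h := by
    rw [hh]
    have : m * m⁻¹ = 1 := mul_inv_cancel₀ hm0.ne'
    have h2 : 0 < (1 - m) ^ 2 := by
      have : 0 < 1 - m := by linarith
      positivity
    have h3 : 0 < m⁻¹ := inv_pos.2 hm0
    nlinarith
  have hnsq : m ^ 2 = s.re ^ 2 + s.im ^ 2 := by
    rw [hm, ← Complex.normSq_eq_norm_sq, Complex.normSq_apply]
    ring
  have hc1 : |c| ≤ 1 := by
    rw [hcd, abs_div, abs_of_pos hm0, div_le_one hm0, hm]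
    exact Complex.abs_re_le_norm s
  have hc : |c| < h := lt_of_le_of_lt hc1 hh1
  have hcm : c * m = s.re := by rw [hcd, div_mul_cancel₀ _ hm0.ne']
  have him : s.im ^ 2 = m ^ 2 * (1 - c ^ 2) := by
    have : (c * m) ^ 2 = s.re ^ 2 := by rw [hcm]
    nlinarith
  obtain ⟨r, hr0, hr2, -⟩ := sqrt_facts hc
  obtain ⟨α, hα⟩ : ∃ α, α = h + r := ⟨_, rfl⟩
  have hh0 : 0 < h := by linarith
  have hα0 : 0 < α := by rw [hα]; linarith
  have hαe : α ^ 2 + c ^ 2 = 2 * h * α := by rw [hα]; nlinarith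
  -- normalisations
  have hY : α / 2 - c ^ 2 / (2 * h) = α * r / (2 * h) := by
    have : α * h - c ^ 2 = α * r := by rw [hα]; nlinarith
    field_simp
    linarith
  have hYp : 0 < α * r / (2 * h) := by positivity
  obtain ⟨r1, hr1⟩ : ∃ r1, r1 = √(2 * h) := ⟨_, rfl⟩
  obtain ⟨r2, hr2d⟩ : ∃ r2, r2 = √(α * r / (2 * h)) := ⟨_, rfl⟩
  have hr1p : 0 < r1 := by rw [hr1]; exact Real.sqrt_pos.2 (by positivity)
  have hr2p : 0 < r2 := by rw [hr2d]; exact Real.sqrt_pos.2 hYp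
  have hr1s : r1 ^ 2 = 2 * h := by rw [hr1]; exact Real.sq_sqrt (by positivity)
  have hr2s : r2 ^ 2 = α * r / (2 * h) := by rw [hr2d]; exact Real.sq_sqrt hYp.le
  obtain ⟨e, he⟩ : ∃ e : ℂ, e = 2 * h - c * (s⁻¹ + s) := ⟨_, rfl⟩
  obtain ⟨β, hβ⟩ : ∃ β : ℂ, β = s * e / (r1 * r2) := ⟨_, rfl⟩
  -- `q2 = |X|² + |Y|²`
  have hq2 : ∀ x y : ℂ, q2 h c α x y = ‖(r1 : ℂ) * (x - (c / (2 * h) : ℝ) * y)‖ ^ 2 + ‖(r2 : ℂ) * y‖ ^ 2 := by
    intro x y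
    rw [norm_mul, norm_mul, mul_pow, mul_pow, Complex.norm_real, Complex.norm_real, Real.norm_of_nonneg hr1p.le,
      Real.norm_of_nonneg hr2p.le, hr1s, hr2s, ← hY, sub_eq_add_neg x, norm_sq_add, norm_neg, norm_mul, Complex.norm_real,
      Real.norm_eq_abs, mul_pow, sq_abs]
    have e1 : (conj x * -(((c / (2 * h) : ℝ) : ℂ) * y)).re = -(c / (2 * h) * (conj x * y).re) := by
      have : conj x * -(((c / (2 * h) : ℝ) : ℂ) * y) = -(((c / (2 * h) : ℝ) : ℂ) * (conj x * y)) := by ring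
      rw [this, Complex.neg_re, Complex.re_ofReal_mul]
    rw [e1]
    unfold q2
    field_simp
    ring
  -- the letter in the new coordinates
  have hlet : ∀ x y : ℂ, (r1 : ℂ) * ((-s ^ 2 * x + s * y) - (c / (2 * h) : ℝ) * y) =
      -s ^ 2 * ((r1 : ℂ) * (x - (c / (2 * h) : ℝ) * y)) + β * ((r2 : ℂ) * y) := by
    intro x y
    have hr1c : (r1 : ℂ) ≠ 0 := by exact_mod_cast hr1p.ne'
    have hr2c : (r2 : ℂ) ≠ 0 := by exact_mod_cast hr2p.ne'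
    have hhc : (h : ℂ) ≠ 0 := by exact_mod_cast hh0.ne'
    have hr1s' : (r1 : ℂ) ^ 2 = 2 * h := by exact_mod_cast hr1s
    have hse : s * e = 2 * h * s - c * (1 + s ^ 2) := by
      rw [he]
      field_simp
    have e1 : β * ((r2 : ℂ) * y) = s * e / r1 * y := by
      rw [hβ]
      field_simp
    rw [e1, hse]
    push_cast
    field_simp
    linear_combination (2 * h * s * y - c * y - c * s ^ 2 * y) * hr1s'
  -- the size of `β`
  have hβn : ‖β‖ ^ 2 ≤ 2 * s.im ^ 2 := by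
    have hen : ‖e‖ ^ 2 = 4 * (1 - c ^ 2) * (h ^ 2 - c ^ 2) := by
      obtain ⟨κ, hκ⟩ : ∃ κ : ℝ, κ = (m ^ 2)⁻¹ := ⟨_, rfl⟩
      have hinv : s⁻¹ = (κ : ℂ) * conj s := by
        rw [Complex.inv_def, Complex.normSq_eq_norm_sq, ← hm, mul_comm, hκ]
      have hre : e.re = 2 * h * (1 - c ^ 2) := by
        rw [he, hinv]
        have : (2 * (h : ℂ) - c * ((κ : ℂ) * conj s + s)).re = 2 * h - c * (κ * s.re + s.re) := by
          simp
        rw [this, ← hcm, hh, hκ]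
        field_simp
        try ring
      have himm : e.im = -(c * (1 - (m ^ 2)⁻¹) * s.im) := by
        rw [he, hinv]
        have : (2 * (h : ℂ) - c * ((κ : ℂ) * conj s + s)).im = - (c * (-(κ * s.im) + s.im)) := by
          simp
        rw [this, hκ]
        ring
      rw [← Complex.normSq_eq_norm_sq, Complex.normSq_apply, hre, himm]
      have e1 : -(c * (1 - (m ^ 2)⁻¹) * s.im) * -(c * (1 - (m ^ 2)⁻¹) * s.im) = c ^ 2 * (1 - (m ^ 2)⁻¹) ^ 2 * s.im ^ 2 := by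
        ring
      rw [e1, him, hh]
      field_simp
      ring
    rw [hβ, norm_div, norm_mul, norm_mul, div_pow, mul_pow, mul_pow, hen, Complex.norm_real, Complex.norm_real,
      Real.norm_of_nonneg hr1p.le, Real.norm_of_nonneg hr2p.le, hr1s, hr2s, ← hm, div_le_iff₀ (by positivity), ← hr2, him]
    have e2 : 2 * h * (α * r / (2 * h)) = α * r := by field_simp
    rw [e2, hα]
    have h3 : 0 ≤ m ^ 2 * (1 - c ^ 2) := by rw [← him]; positivity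
    have h4 : r ≤ h := by nlinarith [sq_nonneg c]
    have h5 : 0 ≤ m ^ 2 * (1 - c ^ 2) * (r * (h - r)) := mul_nonneg h3 (mul_nonneg hr0.le (by linarith))
    nlinarith
  obtain ⟨p₁, p₂, hp, hpp⟩ := two_dim (ζ := -s ^ 2) (β := β) (S := S) (by
    rw [norm_neg, norm_pow, ← hm]
    exact pow_le_one₀ hm0.le h1.le) hS (by
    have e1 : ‖-s ^ 2‖ ^ 2 = ‖s‖ ^ 4 := by
      rw [norm_neg, norm_pow]
      ring
    rw [e1]
    refine le_trans ?_ hS2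
    refine mul_le_mul_of_nonneg_left ?_ (by linarith)
    linarith)
  -- the functional
  obtain ⟨l, hl⟩ : ∃ l : Fin n → ℂ, l = (p₁ * r1) • (del n a - ((c / (2 * h) : ℝ) : ℂ) • nb n a) + (p₂ * r2) • nb n a := ⟨_, rfl⟩
  have hlv : ∀ v, l ⬝ᵥ v = p₁ * ((r1 : ℂ) * (ext n v (a + 1) - (c / (2 * h) : ℝ) * (ext n v a + ext n v (a + 2)))) +
      p₂ * ((r2 : ℂ) * (ext n v a + ext n v (a + 2))) := by
    intro v
    obtain ⟨i, hi⟩ : ∃ i : Fin n, (i : ℕ) = a := ⟨⟨a, ha⟩, rfl⟩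
    rw [hl, add_dotProduct, smul_dotProduct, smul_dotProduct, sub_dotProduct, smul_dotProduct, nb_dot ha, ← hi, del_dot,
      ← ext_succ v i]
    simp only [smul_eq_mul]
    ring
  refine ⟨l, fun v => ?_, fun v => ?_⟩
  · rw [qf_letter h c α ha v rfl rfl, hq2, hq2, hlv, hlet]
    have := hpp ((r1 : ℂ) * (ext n v (a + 1) - (c / (2 * h) : ℝ) * (ext n v a + ext n v (a + 2))))
      ((r2 : ℂ) * (ext n v a + ext n v (a + 2)))
    linarith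
  · refine le_trans ?_ (lower hα0 hαe ha v)
    have e1 := hq2 (ext n v (a + 1)) (ext n v a + ext n v (a + 2))
    unfold q2 at e1
    rw [e1, hlv]
    obtain ⟨X, hX⟩ : ∃ X, X = (r1 : ℂ) * (ext n v (a + 1) - (c / (2 * h) : ℝ) * (ext n v a + ext n v (a + 2))) := ⟨_, rfl⟩
    obtain ⟨Y, hY'⟩ : ∃ Y, Y = (r2 : ℂ) * (ext n v a + ext n v (a + 2)) := ⟨_, rfl⟩
    rw [← hX, ← hY']
    exact cs2 hp X Y

/-- **The determinant of a word at a complex parameter.** -/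
theorem norm_det_sq_le_pow {s : ℂ} (h0 : s ≠ 0) (h1 : ‖s‖ < 1) {S : ℝ} (hS : 1 ≤ S)
    (hS2 : S * (1 + ‖s‖ ^ 4 + 2 * s.im ^ 2) ≤ S ^ 2 + ‖s‖ ^ 4) {n : ℕ} {w : List ℕ} (hw : ∀ a ∈ w, a < n) :
    ‖det (1 - W s n w)‖ ^ 2 ≤ 4 ^ n * S ^ w.length := by
  have hm0 : 0 < ‖s‖ := norm_pos_iff.2 h0
  have hc : |s.re / ‖s‖| < (‖s‖⁻¹ + ‖s‖) / 2 := by
    have h2 : |s.re / ‖s‖| ≤ 1 := by
      rw [abs_div, abs_of_pos hm0, div_le_one hm0]
      exact Complex.abs_re_le_norm s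
    refine lt_of_le_of_lt h2 ?_
    have : ‖s‖ * ‖s‖⁻¹ = 1 := mul_inv_cancel₀ hm0.ne'
    have h2 : 0 < (1 - ‖s‖) ^ 2 := by
      have : 0 < 1 - ‖s‖ := by linarith
      positivity
    have h3 : 0 < ‖s‖⁻¹ := inv_pos.2 hm0
    nlinarith
  have h2 := norm_det_le (Qm_posDef hc n) (Bm s n) (δ := S - 1) (by linarith) w
    (fun a ha => letter h0 h1 hS hS2 (hw a ha))
  rw [Fintype.card_fin, add_sub_cancel] at h2
  exact h2

/-- the same in helper7's form -/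
theorem ud (s : ℂ) (sig : ℝ) (h0 : s ≠ 0) (h1 : ‖s‖ < 1) (hs : 1 ≤ sig)
    (h2 : 1 + ‖s‖ ^ 4 + 2 * s.im ^ 2 ≤ sig ^ 2 + ‖s‖ ^ 4 / sig ^ 2) (n : ℕ) (w : List ℕ) (hw : ∀ a ∈ w, a < n) :
    ‖det (1 - W s n w)‖ ≤ 2 ^ n * sig ^ w.length := by
  have hs2 : 1 ≤ sig ^ 2 := by nlinarith
  have h3 := norm_det_sq_le_pow h0 h1 hs2 (by
    have h4 := mul_le_mul_of_nonneg_left h2 (by positivity : 0 ≤ sig ^ 2)
    have h5 : sig ^ 2 * (sig ^ 2 + ‖s‖ ^ 4 / sig ^ 2) = (sig ^ 2) ^ 2 + ‖s‖ ^ 4 := by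
      field_simp
    rwa [h5] at h4) hw
  have h6 : ‖det (1 - W s n w)‖ ^ 2 ≤ (2 ^ n * sig ^ w.length) ^ 2 := by
    refine h3.trans (le_of_eq ?_)
    rw [mul_pow, ← pow_mul, ← pow_mul, ← pow_mul, mul_comm n 2, pow_mul 2 2 n, mul_comm w.length 2]
    norm_num
  exact (pow_le_pow_iff_left₀ (norm_nonneg _) (by positivity) two_ne_zero).1 h6

end Pool.Agent.Helper29.UD
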