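import Mathlib

/-!
# The two-variable inequality of a letter
-/

set_option autoImplicit false

namespace Pool.Agent.Helper29.UD

open Complex ComplexConjugate

/-- a nonnegative two by two form -/
theorem form_nonneg {a b : ℝ} {m : ℂ} (ha : 0 ≤ a) (hb : 0 ≤ b) (hm : ‖m‖ ^ 2 ≤ a * b) (X Y : ℂ) :
    0 ≤ a * ‖X‖ ^ 2 + 2 * (m * conj X * Y).re + b * ‖Y‖ ^ 2 := by
  have h1 : -(‖m‖ * ‖X‖ * ‖Y‖) ≤ (m * conj X * Y).re := by
    have := (abs_le.1 (Complex.abs_re_le_norm (m * conj X * Y))).1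
    rwa [norm_mul, norm_mul, RCLike.norm_conj] at this
  obtain ⟨u, hu⟩ : ∃ u, u = ‖X‖ := ⟨_, rfl⟩
  obtain ⟨w, hw⟩ : ∃ w, w = ‖Y‖ := ⟨_, rfl⟩
  obtain ⟨r, hr⟩ : ∃ r, r = ‖m‖ := ⟨_, rfl⟩
  have hr0 : 0 ≤ r := by rw [hr]; exact norm_nonneg _
  have hu0 : 0 ≤ u := by rw [hu]; exact norm_nonneg _
  have hw0 : 0 ≤ w := by rw [hw]; exact norm_nonneg _
  rw [← hu, ← hw, ← hr] at h1
  rw [← hu, ← hw]
  rw [← hr] at hm
  have h2 : 2 * (r * u * w) ≤ a * u ^ 2 + b * w ^ 2 := by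
    have h3 : r ≤ √a * √b := by
      rw [← Real.sqrt_mul ha]
      exact Real.le_sqrt_of_sq_le hm
    have h4 : 0 ≤ (√a * u - √b * w) ^ 2 := sq_nonneg _
    have h5 := Real.sq_sqrt ha
    have h6 := Real.sq_sqrt hb
    have h7 : r * (u * w) ≤ √a * √b * (u * w) := mul_le_mul_of_nonneg_right h3 (mul_nonneg hu0 hw0)
    have h8 : (√a * u - √b * w) ^ 2 = (√a) ^ 2 * u ^ 2 - 2 * (√a * √b * (u * w)) + (√b) ^ 2 * w ^ 2 := by ring
    rw [h5, h6] at h8
    linarith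
  linarith

/-- **The 2 × 2 matrix `[[ζ, β], [0, 1]]`.** -/
theorem two_dim {ζ β : ℂ} {S : ℝ} (hζ : ‖ζ‖ ≤ 1) (hS : 1 ≤ S)
    (h : S * (1 + ‖ζ‖ ^ 2 + ‖β‖ ^ 2) ≤ S ^ 2 + ‖ζ‖ ^ 2) :
    ∃ p₁ p₂ : ℂ, ‖p₁‖ ^ 2 + ‖p₂‖ ^ 2 ≤ 1 ∧ ∀ X Y : ℂ,
      ‖ζ * X + β * Y‖ ^ 2 ≤ ‖X‖ ^ 2 + (S - 1) * ‖p₁ * X + p₂ * Y‖ ^ 2 := by
  obtain ⟨A, hA⟩ : ∃ A, A = 1 - ‖ζ‖ ^ 2 := ⟨_, rfl⟩
  obtain ⟨D, hD⟩ : ∃ D, D = ‖β‖ ^ 2 := ⟨_, rfl⟩
  obtain ⟨g, hg⟩ : ∃ g, g = S - 1 := ⟨_, rfl⟩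
  obtain ⟨μ, hμ⟩ : ∃ μ, μ = conj ζ * β := ⟨_, rfl⟩
  obtain ⟨G, hG⟩ : ∃ G, G = A + g := ⟨_, rfl⟩
  have hζ0 := norm_nonneg ζ
  have hA0 : 0 ≤ A := by rw [hA]; nlinarith
  have hD0 : 0 ≤ D := by rw [hD]; positivity
  have hg0 : 0 ≤ g := by rw [hg]; linarith
  have hG0 : 0 ≤ G := by rw [hG]; linarith
  have hμ2 : ‖μ‖ ^ 2 = (1 - A) * D := by
    rw [hμ, norm_mul, RCLike.norm_conj, mul_pow, hA, hD]
    ring
  obtain ⟨B, hB⟩ : ∃ B, B = ‖μ‖ ^ 2 := ⟨_, rfl⟩
  have hB0 : 0 ≤ B := by rw [hB]; positivity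
  have hK : 0 ≤ G * (G - A - D) - B := by
    have e : G * (G - A - D) - B = S ^ 2 + ‖ζ‖ ^ 2 - S * (1 + ‖ζ‖ ^ 2 + ‖β‖ ^ 2) := by
      rw [hB, hμ2, hG, hg, hA, hD]
      ring
    rw [e]
    linarith
  -- expansion of the left side
  have hexp : ∀ X Y : ℂ, ‖ζ * X + β * Y‖ ^ 2 = (1 - A) * ‖X‖ ^ 2 + 2 * (μ * conj X * Y).re + D * ‖Y‖ ^ 2 := by
    intro X Y
    rw [← Complex.normSq_eq_norm_sq, Complex.normSq_add, Complex.normSq_mul, Complex.normSq_mul,
      Complex.normSq_eq_norm_sq, Complex.normSq_eq_norm_sq, Complex.normSq_eq_norm_sq, Complex.normSq_eq_norm_sq,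
      hA, hD, hμ]
    have e : (ζ * X * conj (β * Y)).re = (conj ζ * β * conj X * Y).re := by
      rw [← Complex.conj_re]
      congr 1
      simp only [map_mul, Complex.conj_conj]
      ring
    rw [e]
    ring
  by_cases hn : B + G ^ 2 = 0
  · -- everything vanishes
    have hB1 : B = 0 := by nlinarith [sq_nonneg G]
    have hG1 : G = 0 := by nlinarith [sq_nonneg G]
    have hA1 : A = 0 := by linarith
    have hg1 : g = 0 := by linarith
    have hD1 : D = 0 := by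
      rw [← hB, hB1, hA1] at hμ2
      linarith
    refine ⟨0, 0, by simp, fun X Y => ?_⟩
    rw [hexp, hA1, hD1]
    have hμ0 : μ = 0 := by
      have : ‖μ‖ ^ 2 = 0 := by rw [← hB, hB1]
      exact norm_eq_zero.1 (pow_eq_zero_iff (two_ne_zero) |>.1 this)
    rw [hμ0]
    simp
  · have hn0 : 0 < B + G ^ 2 := lt_of_le_of_ne (by positivity) (Ne.symm hn)
    obtain ⟨N, hN⟩ : ∃ N, N = B + G ^ 2 := ⟨_, rfl⟩
    rw [← hN] at hn0
    have hsN : (√N) ^ 2 = N := Real.sq_sqrt hn0.le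
    have hsN0 : 0 < √N := Real.sqrt_pos.2 hn0
    refine ⟨conj μ / (√N : ℝ), (G : ℂ) / (√N : ℝ), ?_, fun X Y => ?_⟩
    · rw [norm_div, norm_div, RCLike.norm_conj, Complex.norm_real, Complex.norm_real, Real.norm_of_nonneg hG0,
        Real.norm_of_nonneg hsN0.le, div_pow, div_pow, hsN, ← add_div, ← hB, ← hN, div_self hn0.ne']
    · have e1 : ‖conj μ / (√N : ℝ) * X + (G : ℂ) / (√N : ℝ) * Y‖ ^ 2 =
          (B * ‖X‖ ^ 2 + 2 * G * (μ * conj X * Y).re + G ^ 2 * ‖Y‖ ^ 2) / N := by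
        have e2 : conj μ / (√N : ℝ) * X + (G : ℂ) / (√N : ℝ) * Y = (conj μ * X + (G : ℂ) * Y) / (√N : ℝ) := by ring
        rw [e2, norm_div, div_pow, Complex.norm_real, Real.norm_of_nonneg hsN0.le, hsN]
        congr 1
        rw [← Complex.normSq_eq_norm_sq, Complex.normSq_add, Complex.normSq_mul, Complex.normSq_mul,
          Complex.normSq_eq_norm_sq, Complex.normSq_eq_norm_sq, Complex.normSq_eq_norm_sq, Complex.normSq_eq_norm_sq,
          RCLike.norm_conj, Complex.norm_real, Real.norm_of_nonneg hG0, hB]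
        have e3 : (conj μ * X * conj ((G : ℂ) * Y)).re = G * (μ * conj X * Y).re := by
          rw [← Complex.re_ofReal_mul, ← Complex.conj_re]
          congr 1
          simp only [map_mul, Complex.conj_conj, Complex.conj_ofReal]
          ring
        rw [e3]
        ring
      rw [hexp, e1, ← hg]
      have hf := form_nonneg (a := A + g * B / N) (b := g * G ^ 2 / N - D) (m := ((g * G / N - 1 : ℝ) : ℂ) * μ)
        (by positivity) ?_ ?_ X Y
      · have e4 : (((g * G / N - 1 : ℝ) : ℂ) * μ * conj X * Y).re = (g * G / N - 1) * (μ * conj X * Y).re := by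
          rw [mul_assoc, mul_assoc, Complex.re_ofReal_mul, ← mul_assoc]
        rw [e4] at hf
        have e5 : g * ((B * ‖X‖ ^ 2 + 2 * G * (μ * conj X * Y).re + G ^ 2 * ‖Y‖ ^ 2) / N) =
          g * B / N * ‖X‖ ^ 2 + 2 * (g * G / N) * (μ * conj X * Y).re + g * G ^ 2 / N * ‖Y‖ ^ 2 := by ring
        rw [e5]
        linarith
      · -- `D N ≤ g G²`
        rw [sub_nonneg, le_div_iff₀ hn0, hN]
        have hgG : g = G - A := by rw [hG]; ring
        rw [hgG]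
        -- `(G - A - D) G² - D B ≥ B G - D B`
        have hGD : D ≤ G := by
          by_contra hcon
          push Not at hcon
          have : G * (G - A - D) ≤ 0 := mul_nonpos_of_nonneg_of_nonpos hG0 (by linarith)
          have hB1 : B = 0 := by linarith
          have hz : G * (G - A - D) = 0 := by linarith
          rcases mul_eq_zero.1 hz with h1 | h1
          · apply hn
            rw [hB1, h1]
            ring
          · linarith
        nlinarith [mul_nonneg hG0 hK, mul_nonneg hB0 (sub_nonneg.2 hGD)]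
      · rw [norm_mul, mul_pow, Complex.norm_real, ← hB, Real.norm_eq_abs, sq_abs]
        have hgG : g = G - A := by rw [hG]; ring
        have e6 : (A + g * B / N) * (g * G ^ 2 / N - D) - (g * G / N - 1) ^ 2 * B =
            (G * (G - A - D) - B) * (A * G + B) / N := by
          have hBN : B = N - G ^ 2 := by rw [hN]; ring
          rw [hgG]
          field_simp
          rw [hN]
          ring
        have h9 : 0 ≤ (G * (G - A - D) - B) * (A * G + B) / N := by positivity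
        linarith

end Pool.Agent.Helper29.UD
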