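import Pool.Agent.Helper29.UD.PSD
import Pool.Agent.Helper29.UD.Two
import Pool.Agent.Helper99.ZB.Burau

/-!
# The form `2 h |v|² - 2 c Re Σ conj v_j v_(j+1)` and one letter
-/

set_option autoImplicit false

namespace Pool.Agent.Helper29.UD

open Complex ComplexConjugate Matrix

/-- the local term of the form -/
noncomputable def F (h c : ℝ) (g : ℕ → ℂ) (k : ℕ) : ℝ := 2 * h * ‖g (k + 1)‖ ^ 2 - c * (conj (g (k + 1)) * (g k + g (k + 2))).re

theorem cross {α c : ℝ} (hα : 0 < α) (a b : ℂ) : 2 * c * (conj a * b).re ≤ α * ‖a‖ ^ 2 + c ^ 2 / α * ‖b‖ ^ 2 := by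
  have h1 : (conj a * b).re ≤ ‖a‖ * ‖b‖ := by
    have := Complex.re_le_norm (conj a * b)
    rwa [norm_mul, RCLike.norm_conj] at this
  have h1' : -(‖a‖ * ‖b‖) ≤ (conj a * b).re := by
    have := (abs_le.1 (Complex.abs_re_le_norm (conj a * b))).1
    rwa [norm_mul, RCLike.norm_conj] at this
  have h2 : 2 * c * (conj a * b).re ≤ 2 * |c| * (‖a‖ * ‖b‖) := by
    have h3 : |(conj a * b).re| ≤ ‖a‖ * ‖b‖ := abs_le.2 ⟨h1', h1⟩
    calc 2 * c * (conj a * b).re ≤ |2 * c * (conj a * b).re| := le_abs_self _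
      _ = 2 * |c| * |(conj a * b).re| := by rw [abs_mul, abs_mul, abs_of_pos (by norm_num : (0 : ℝ) < 2)]
      _ ≤ _ := mul_le_mul_of_nonneg_left h3 (by positivity)
  refine h2.trans ?_
  have h4 : 0 ≤ (α * ‖a‖ - |c| * ‖b‖) ^ 2 / α := by positivity
  have h5 : (α * ‖a‖ - |c| * ‖b‖) ^ 2 / α = α * ‖a‖ ^ 2 - 2 * |c| * (‖a‖ * ‖b‖) + |c| ^ 2 / α * ‖b‖ ^ 2 := by
    field_simp
    ring
  rw [h5, sq_abs] at h4
  linarith

/-- left half line -/
theorem left_sum {h c α : ℝ} (hα : 0 < α) (he : α ^ 2 + c ^ 2 = 2 * h * α) (g : ℕ → ℂ) (h0 : g 0 = 0) (p : ℕ) :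
    α * ‖g p‖ ^ 2 - c * (conj (g p) * g (p + 1)).re ≤ ∑ k ∈ Finset.range p, F h c g k := by
  have he' : c ^ 2 / α = 2 * h - α := by
    rw [div_eq_iff hα.ne']
    linarith
  induction p with
  | zero => simp [h0]
  | succ p ih =>
    rw [Finset.sum_range_succ]
    have h1 := cross (c := c) hα (g p) (g (p + 1))
    rw [he'] at h1
    have h2 : (conj (g (p + 1)) * (g p + g (p + 2))).re = (conj (g p) * g (p + 1)).re +
        (conj (g (p + 1)) * g (p + 2)).re := by
      rw [mul_add, Complex.add_re]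
      congr 1
      rw [← Complex.conj_re]
      congr 1
      rw [map_mul, Complex.conj_conj, mul_comm]
    have e : F h c g p = 2 * h * ‖g (p + 1)‖ ^ 2 - c * (conj (g (p + 1)) * (g p + g (p + 2))).re := rfl
    rw [e, h2, mul_add]
    have e2 : p + 1 + 1 = p + 2 := rfl
    rw [e2]
    linarith

/-- the extension by zero, shifted by one -/
noncomputable def ext (n : ℕ) (v : Fin n → ℂ) (k : ℕ) : ℂ := if h : 1 ≤ k ∧ k ≤ n then v ⟨k - 1, by omega⟩ else 0

theorem ext_zero {n : ℕ} (v : Fin n → ℂ) : ext n v 0 = 0 := by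
  unfold ext
  rw [dif_neg (by omega)]

theorem ext_top {n : ℕ} (v : Fin n → ℂ) : ext n v (n + 1) = 0 := by
  unfold ext
  rw [dif_neg (by omega)]

theorem ext_succ {n : ℕ} (v : Fin n → ℂ) (k : Fin n) : ext n v (k + 1) = v k := by
  unfold ext
  rw [dif_pos ⟨by omega, by omega⟩]
  rfl

/-- indicator of the neighbours -/
def nb (n a : ℕ) : Fin n → ℂ := fun j => if (j : ℕ) + 1 = a ∨ a + 1 = (j : ℕ) then 1 else 0

/-- the matrix of the form -/
noncomputable def Qm (h c : ℝ) (n : ℕ) : Matrix (Fin n) (Fin n) ℂ := fun i j =>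
  if i = j then ((2 * h : ℝ) : ℂ) else if (j : ℕ) + 1 = i ∨ (i : ℕ) + 1 = (j : ℕ) then -(c : ℂ) else 0

theorem Qm_herm (h c : ℝ) (n : ℕ) : (Qm h c n).IsHermitian := by
  ext i j
  rw [conjTranspose_apply]
  unfold Qm
  by_cases h1 : i = j
  · subst h1
    simp
  · rw [if_neg (fun h2 => h1 h2.symm), if_neg h1]
    by_cases h2 : (j : ℕ) + 1 = i ∨ (i : ℕ) + 1 = (j : ℕ)
    · rw [if_pos (by tauto), if_pos h2]
      simp
    · rw [if_neg (by tauto), if_neg h2]
      simp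

theorem nb_dot {n : ℕ} {a : ℕ} (ha : a < n) (v : Fin n → ℂ) : nb n a ⬝ᵥ v = ext n v a + ext n v (a + 2) := by
  have e1 : nb n a ⬝ᵥ v = ∑ k ∈ Finset.range n, (if k + 1 = a ∨ a + 1 = k then 1 else 0) * ext n v (k + 1) := by
    rw [Finset.sum_range]
    unfold dotProduct nb
    refine Finset.sum_congr rfl fun k _ => ?_
    rw [ext_succ]
  have e2 : ∀ k, (if k + 1 = a ∨ a + 1 = k then (1 : ℂ) else 0) * ext n v (k + 1) =
      (if k + 1 = a then ext n v (k + 1) else 0) + (if a + 1 = k then ext n v (k + 1) else 0) := by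
    intro k
    by_cases h1 : k + 1 = a
    · rw [if_pos (Or.inl h1), if_pos h1, if_neg (by omega)]
      ring
    · by_cases h2 : a + 1 = k
      · rw [if_pos (Or.inr h2), if_neg h1, if_pos h2]
        ring
      · rw [if_neg (by tauto), if_neg h1, if_neg h2]
        ring
  rw [e1, Finset.sum_congr rfl fun k _ => e2 k, Finset.sum_add_distrib]
  congr 1
  · rcases Nat.eq_zero_or_pos a with rfl | hpos
    · rw [ext_zero]
      exact Finset.sum_eq_zero fun k _ => if_neg (by omega)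
    · rw [Finset.sum_eq_single (a - 1)]
      · rw [if_pos (by omega), Nat.sub_add_cancel hpos]
      · intro k _ hk
        rw [if_neg (by omega)]
      · intro hk
        exact absurd (Finset.mem_range.2 (by omega)) hk
  · rw [Finset.sum_ite_eq]
    split_ifs with h3
    · rfl
    · rw [Finset.mem_range] at h3
      have : a + 2 = n + 1 := by omega
      rw [this, ext_top]

theorem del_dot {n : ℕ} (i : Fin n) (v : Fin n → ℂ) : Pool.Agent.Helper99.ZB.del n i ⬝ᵥ v = v i := by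
  unfold dotProduct Pool.Agent.Helper99.ZB.del
  rw [Finset.sum_eq_single i]
  · simp
  · intro j _ hj
    have : (j : ℕ) ≠ i := fun h => hj (Fin.ext h)
    simp [this]
  · intro h
    exact absurd (Finset.mem_univ _) h

theorem Qm_row (h c : ℝ) {n : ℕ} (i : Fin n) :
    Qm h c n i = ((2 * h : ℝ) : ℂ) • Pool.Agent.Helper99.ZB.del n i - (c : ℂ) • nb n i := by
  ext j
  unfold Qm Pool.Agent.Helper99.ZB.del nb
  simp only [Pi.sub_apply, Pi.smul_apply, smul_eq_mul]
  by_cases h1 : i = j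
  · subst h1
    simp
  · have h2 : (j : ℕ) ≠ i := fun h3 => h1 (Fin.ext h3.symm)
    rw [if_neg h1, if_neg h2]
    by_cases h3 : (j : ℕ) + 1 = i ∨ (i : ℕ) + 1 = (j : ℕ)
    · rw [if_pos h3, if_pos h3]
      ring
    · rw [if_neg h3, if_neg h3]
      ring

theorem Qm_mulVec (h c : ℝ) {n : ℕ} (v : Fin n → ℂ) (i : Fin n) :
    (Qm h c n *ᵥ v) i = ((2 * h : ℝ) : ℂ) * v i - (c : ℂ) * (ext n v i + ext n v (i + 2)) := by
  have : (Qm h c n *ᵥ v) i = Qm h c n i ⬝ᵥ v := rfl
  rw [this, Qm_row, sub_dotProduct, smul_dotProduct, smul_dotProduct, del_dot, nb_dot i.2, smul_eq_mul, smul_eq_mul]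

theorem qf_eq (h c : ℝ) {n : ℕ} (v : Fin n → ℂ) : qf (Qm h c n) v = ∑ k ∈ Finset.range n, F h c (ext n v) k := by
  rw [Finset.sum_range]
  unfold qf dotProduct
  rw [Complex.re_sum]
  refine Finset.sum_congr rfl fun k _ => ?_
  rw [Qm_mulVec]
  unfold F
  rw [ext_succ, mul_sub, Complex.sub_re]
  have e1 : (star v k * (((2 * h : ℝ) : ℂ) * v k)).re = 2 * h * ‖v k‖ ^ 2 := by
    have : star v k * (((2 * h : ℝ) : ℂ) * v k) = ((2 * h * ‖v k‖ ^ 2 : ℝ) : ℂ) := by
      rw [Complex.ofReal_mul (2 * h), ← Complex.normSq_eq_norm_sq, ← Complex.mul_conj, Pi.star_apply, Complex.star_def]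
      ring
    rw [this, Complex.ofReal_re]
  have e2 : (star v k * ((c : ℂ) * (ext n v k + ext n v (k + 2)))).re =
      c * (conj (v k) * (ext n v k + ext n v (k + 2))).re := by
    rw [← Complex.re_ofReal_mul, Pi.star_apply, Complex.star_def]
    congr 1
    ring
  rw [e1, e2]

/-- **Lower bound of the form by its part at the letter `a`.** -/
theorem lower {h c α : ℝ} (hα : 0 < α) (he : α ^ 2 + c ^ 2 = 2 * h * α) {n : ℕ} {a : ℕ} (ha : a < n) (v : Fin n → ℂ) :
    2 * h * ‖ext n v (a + 1)‖ ^ 2 - 2 * c * (conj (ext n v (a + 1)) * (ext n v a + ext n v (a + 2))).re +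
      α / 2 * ‖ext n v a + ext n v (a + 2)‖ ^ 2 ≤ qf (Qm h c n) v := by
  obtain ⟨g, hg⟩ : ∃ g, g = ext n v := ⟨_, rfl⟩
  have hg0 : g 0 = 0 := by rw [hg, ext_zero]
  have hgn : g (n + 1) = 0 := by rw [hg, ext_top]
  rw [qf_eq, ← hg]
  -- split the sum
  have e1 : ∑ k ∈ Finset.range n, F h c g k = ∑ k ∈ Finset.range a, F h c g k + F h c g a +
      ∑ k ∈ Finset.range (n - 1 - a), F h c g (a + 1 + k) := by
    have : n = a + 1 + (n - 1 - a) := by omega
    conv_lhs => rw [this]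
    rw [Finset.sum_range_add, Finset.sum_range_succ]
  have h1 := left_sum hα he g hg0 a
  -- the reversed sequence
  obtain ⟨f, hf⟩ : ∃ f : ℕ → ℂ, f = fun k => g (n + 1 - k) := ⟨_, rfl⟩
  have hf0 : f 0 = 0 := by rw [hf]; exact hgn
  have h2 := left_sum hα he f hf0 (n - 1 - a)
  have e2 : ∑ k ∈ Finset.range (n - 1 - a), F h c g (a + 1 + k) = ∑ k ∈ Finset.range (n - 1 - a), F h c f k := by
    rw [← Finset.sum_range_reflect]
    refine Finset.sum_congr rfl fun k hk => ?_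
    rw [Finset.mem_range] at hk
    unfold F
    rw [hf]
    simp only
    have e3 : a + 1 + (n - 1 - a - 1 - k) + 1 = n + 1 - (k + 1) := by omega
    have e4 : a + 1 + (n - 1 - a - 1 - k) + 2 = n + 1 - k := by omega
    have e5 : a + 1 + (n - 1 - a - 1 - k) = n + 1 - (k + 2) := by omega
    rw [e3, e4, e5, add_comm (g (n + 1 - (k + 2)))]
  have e6 : f (n - 1 - a) = g (a + 2) := by
    rw [hf]
    show g (n + 1 - (n - 1 - a)) = g (a + 2)
    congr 1
    omega
  have e7 : f (n - 1 - a + 1) = g (a + 1) := by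
    rw [hf]
    show g (n + 1 - (n - 1 - a + 1)) = g (a + 1)
    congr 1
    omega
  rw [← e2, e6, e7] at h2
  rw [e1]
  have e8 : F h c g a = 2 * h * ‖g (a + 1)‖ ^ 2 - c * (conj (g (a + 1)) * (g a + g (a + 2))).re := rfl
  have e9 : (conj (g a) * g (a + 1)).re + (conj (g (a + 2)) * g (a + 1)).re = (conj (g (a + 1)) * (g a + g (a + 2))).re := by
    rw [mul_add, Complex.add_re]
    congr 1
    · rw [← Complex.conj_re]
      congr 1
      rw [map_mul, Complex.conj_conj, mul_comm]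
    · rw [← Complex.conj_re]
      congr 1
      rw [map_mul, Complex.conj_conj, mul_comm]
  have h3 : ‖g a + g (a + 2)‖ ^ 2 ≤ 2 * (‖g a‖ ^ 2 + ‖g (a + 2)‖ ^ 2) := by
    have h4 := norm_add_le (g a) (g (a + 2))
    have h5 := norm_nonneg (g a + g (a + 2))
    nlinarith [sq_nonneg (‖g a‖ - ‖g (a + 2)‖)]
  have h6 : α / 2 * ‖g a + g (a + 2)‖ ^ 2 ≤ α * ‖g a‖ ^ 2 + α * ‖g (a + 2)‖ ^ 2 := by
    have := mul_le_mul_of_nonneg_left h3 (by positivity : 0 ≤ α / 2)
    linarith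
  have e10 := congrArg (fun t => c * t) e9
  simp only [mul_add] at e10
  rw [e8]
  simp only [mul_add] at h1 h2 ⊢
  linarith

theorem qf_nonneg' {h c α : ℝ} (hα : 0 < α) (he : α ^ 2 + c ^ 2 = 2 * h * α) {n : ℕ} (v : Fin n → ℂ) :
    0 ≤ qf (Qm h c n) v := by
  have h1 := left_sum hα he (ext n v) (ext_zero v) n
  rw [qf_eq]
  refine le_trans ?_ h1
  rw [ext_top, mul_zero, Complex.zero_re, mul_zero, sub_zero]
  positivity

end Pool.Agent.Helper29.UD
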