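import Mathlib

/-!
# A determinant inequality for products of letters

If every letter increases a positive definite form by at most `δ |ℓ v|²`, where `|ℓ v|² ≤ Q v`, then
`|det (1 - W)|² ≤ 4 ^ m * (1 + δ) ^ L`.
-/

set_option autoImplicit false

namespace Pool.Agent.Helper29.UD

open Matrix
open scoped ComplexOrder MatrixOrder

variable {ι : Type*} [Fintype ι] [DecidableEq ι]

/-- the value of a form -/
noncomputable def qf (Q : Matrix ι ι ℂ) (v : ι → ℂ) : ℝ := (star v ⬝ᵥ (Q *ᵥ v)).re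

omit [DecidableEq ι] in
theorem im_zero {Q : Matrix ι ι ℂ} (hQ : Q.IsHermitian) (v : ι → ℂ) : (star v ⬝ᵥ (Q *ᵥ v)).im = 0 := by
  have h : star (star v ⬝ᵥ (Q *ᵥ v)) = star v ⬝ᵥ (Q *ᵥ v) := by
    have e := star_dotProduct v (Q *ᵥ v)
    rw [star_mulVec, ← dotProduct_mulVec, hQ.eq] at e
    exact e.symm
  have h2 := congrArg Complex.im h
  rw [Complex.star_def, Complex.conj_im] at h2
  linarith

omit [DecidableEq ι] in
theorem eq_qf {Q : Matrix ι ι ℂ} (hQ : Q.IsHermitian) (v : ι → ℂ) : star v ⬝ᵥ (Q *ᵥ v) = (qf Q v : ℂ) := by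
  apply Complex.ext
  · rfl
  · rw [im_zero hQ, Complex.ofReal_im]

omit [DecidableEq ι] in
theorem psd_of {Q : Matrix ι ι ℂ} (hQ : Q.IsHermitian) (h : ∀ v, 0 ≤ qf Q v) : Q.PosSemidef := by
  refine PosSemidef.of_dotProduct_mulVec_nonneg hQ fun v => ?_
  rw [eq_qf hQ]
  exact_mod_cast h v

theorem one_le_det {K : Matrix ι ι ℂ} (hK : (K - 1).PosSemidef) : 1 ≤ K.det := by
  have hH : K.IsHermitian := by
    have := hK.isHermitian.add (isHermitian_one (n := ι) (α := ℂ))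
    simpa using this
  have h1 : ∀ i, (1 : ℝ) ≤ hH.eigenvalues i := by
    intro i
    have h2 := hK.re_dotProduct_nonneg (⇑(hH.eigenvectorBasis i))
    have h3 := hH.eigenvalues_eq i
    have h4 : star (⇑(hH.eigenvectorBasis i) : ι → ℂ) ⬝ᵥ ⇑(hH.eigenvectorBasis i) = 1 := by
      have h5 := hH.eigenvectorBasis.orthonormal.1 i
      rw [dotProduct_comm, ← EuclideanSpace.inner_eq_star_dotProduct, inner_self_eq_norm_sq_to_K, h5]
      simp
    rw [sub_mulVec, one_mulVec, dotProduct_sub, map_sub, h4] at h2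
    rw [h3]
    simpa using h2
  rw [hH.det_eq_prod_eigenvalues]
  have h2 : (1 : ℝ) ≤ ∏ i, hH.eigenvalues i := by
    have := Finset.prod_le_prod (s := Finset.univ) (f := fun _ : ι => (1 : ℝ)) (g := hH.eigenvalues)
      (fun i _ => zero_le_one) (fun i _ => h1 i)
    simpa using this
  have h3 : (∏ i, ((hH.eigenvalues i : ℝ) : ℂ)) = ((∏ i, hH.eigenvalues i : ℝ) : ℂ) := by
    push_cast
    rfl
  have h4 : (∏ i, (RCLike.ofReal (hH.eigenvalues i) : ℂ)) = ((∏ i, hH.eigenvalues i : ℝ) : ℂ) := h3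
  rw [h4]
  exact_mod_cast h2

theorem det_mono {A B : Matrix ι ι ℂ} (hA : A.PosDef) (h : (B - A).PosSemidef) : A.det ≤ B.det := by
  obtain ⟨S, hS⟩ := CStarAlgebra.nonneg_iff_eq_star_mul_self.mp hA.posSemidef.nonneg
  have hdet : A.det ≠ 0 := hA.det_pos.ne'
  have hSd : S.det ≠ 0 := by
    intro h0
    apply hdet
    rw [hS, det_mul, h0, mul_zero]
  have hSu : IsUnit S.det := isUnit_iff_ne_zero.2 hSd
  obtain ⟨K, hK⟩ : ∃ K, K = (S⁻¹)ᴴ * (B - A) * S⁻¹ := ⟨_, rfl⟩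
  have hKp : K.PosSemidef := by
    rw [hK]
    exact h.conjTranspose_mul_mul_same S⁻¹
  have hB : B = Sᴴ * (1 + K) * S := by
    have e1 : S⁻¹ * S = 1 := nonsing_inv_mul S hSu
    have e2 : Sᴴ * (S⁻¹)ᴴ = 1 := by
      rw [← conjTranspose_mul, e1, conjTranspose_one]
    calc B = Sᴴ * S + (Sᴴ * (S⁻¹)ᴴ) * (B - A) * (S⁻¹ * S) := by
          rw [e1, e2, one_mul, mul_one, ← star_eq_conjTranspose, ← hS]
          abel
      _ = Sᴴ * (1 + K) * S := by
          rw [hK]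
          noncomm_ring
  have h1 : 1 ≤ (1 + K).det := one_le_det (by simpa using hKp)
  have h2 : A.det = star S.det * S.det := by rw [hS, det_mul, star_eq_conjTranspose, det_conjTranspose]
  have h3 : B.det = (star S.det * S.det) * (1 + K).det := by
    rw [hB, det_mul, det_mul, det_conjTranspose]
    ring
  rw [h3]
  have h4 : 0 ≤ A.det := hA.posSemidef.det_nonneg
  rw [← h2]
  calc A.det = A.det * 1 := (mul_one _).symm
    _ ≤ A.det * (1 + K).det := mul_le_mul_of_nonneg_left h1 h4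

omit [DecidableEq ι] in
theorem qf_add (A B : Matrix ι ι ℂ) (v : ι → ℂ) : qf (A + B) v = qf A v + qf B v := by
  unfold qf
  rw [add_mulVec, dotProduct_add, Complex.add_re]

omit [DecidableEq ι] in
theorem qf_sub (A B : Matrix ι ι ℂ) (v : ι → ℂ) : qf (A - B) v = qf A v - qf B v := by
  unfold qf
  rw [sub_mulVec, dotProduct_sub, Complex.sub_re]

omit [DecidableEq ι] in
theorem qf_conj (Q W : Matrix ι ι ℂ) (v : ι → ℂ) : qf (Wᴴ * Q * W) v = qf Q (W *ᵥ v) := by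
  unfold qf
  rw [← mulVec_mulVec, ← mulVec_mulVec, dotProduct_mulVec, star_mulVec]

omit [DecidableEq ι] in
theorem qf_rank (q v : ι → ℂ) (δ : ℝ) : qf (vecMulVec ((δ : ℂ) • q) (star q)) v = δ * ‖star q ⬝ᵥ v‖ ^ 2 := by
  unfold qf
  rw [vecMulVec_mulVec, dotProduct_comm]
  have e : ((MulOpposite.op (star q ⬝ᵥ v)) • ((δ : ℂ) • q)) ⬝ᵥ star v = (δ : ℂ) * ((star q ⬝ᵥ v) * star (star q ⬝ᵥ v)) := by
    have e2 : star (star q ⬝ᵥ v) = q ⬝ᵥ star v := by
      have h := star_dotProduct q v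
      rw [h, star_star, dotProduct_comm]
    rw [e2]
    obtain ⟨c, hc⟩ : ∃ c, c = star q ⬝ᵥ v := ⟨_, rfl⟩
    rw [← hc]
    simp only [dotProduct, Pi.smul_apply, MulOpposite.smul_eq_mul_unop, MulOpposite.unop_op, smul_eq_mul, Finset.mul_sum]
    refine Finset.sum_congr rfl fun i _ => ?_
    ring
  rw [e]
  have e3 : (star q ⬝ᵥ v) * star (star q ⬝ᵥ v) = ((‖star q ⬝ᵥ v‖ ^ 2 : ℝ) : ℂ) := by
    rw [Complex.star_def, Complex.mul_conj, Complex.normSq_eq_norm_sq]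
  rw [e3, ← Complex.ofReal_mul, Complex.ofReal_re]

/-- the form before and after a word -/
noncomputable def Gm (Q W : Matrix ι ι ℂ) : Matrix ι ι ℂ := Q + Wᴴ * Q * W

omit [DecidableEq ι] in
theorem Gm_posDef {Q : Matrix ι ι ℂ} (hQ : Q.PosDef) (W : Matrix ι ι ℂ) : (Gm Q W).PosDef :=
  hQ.add_posSemidef (hQ.posSemidef.conjTranspose_mul_mul_same W)

omit [DecidableEq ι] in
theorem qf_nonneg {Q : Matrix ι ι ℂ} (hQ : Q.PosDef) (v : ι → ℂ) : 0 ≤ qf Q v :=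
  hQ.posSemidef.re_dotProduct_nonneg v

/-- one letter -/
theorem step {Q : Matrix ι ι ℂ} (hQ : Q.PosDef) {M : Matrix ι ι ℂ} {l : ι → ℂ} {δ : ℝ} (hδ : 0 ≤ δ)
    (h1 : ∀ v, qf Q (M *ᵥ v) ≤ qf Q v + δ * ‖l ⬝ᵥ v‖ ^ 2) (h2 : ∀ v, ‖l ⬝ᵥ v‖ ^ 2 ≤ qf Q v) (W : Matrix ι ι ℂ) :
    (Gm Q (M * W)).det ≤ ((1 + δ : ℝ) : ℂ) * (Gm Q W).det := by
  obtain ⟨q, hq⟩ : ∃ q : ι → ℂ, q = star (l ᵥ* W) := ⟨_, rfl⟩
  have hqv : ∀ v, star q ⬝ᵥ v = l ⬝ᵥ (W *ᵥ v) := by
    intro v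
    rw [hq, star_star, dotProduct_mulVec]
  have hG := Gm_posDef hQ W
  have hGM := Gm_posDef hQ (M * W)
  obtain ⟨B, hB⟩ : ∃ B, B = Gm Q W + vecMulVec ((δ : ℂ) • q) (star q) := ⟨_, rfl⟩
  have hBH : B.IsHermitian := by
    rw [hB]
    refine hG.isHermitian.add ?_
    have : (vecMulVec q (star q) : Matrix ι ι ℂ).IsHermitian := (posSemidef_vecMulVec_self_star q).isHermitian
    rw [smul_vecMulVec]
    unfold IsHermitian
    rw [conjTranspose_smul, this.eq]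
    simp
  have hps : (B - Gm Q (M * W)).PosSemidef := by
    refine psd_of (hBH.sub hGM.isHermitian) fun v => ?_
    rw [qf_sub, hB, qf_add, qf_rank, hqv]
    unfold Gm
    rw [qf_add, qf_conj, qf_add, qf_conj, ← mulVec_mulVec]
    have := h1 (W *ᵥ v)
    linarith
  have hm := det_mono hGM hps
  refine hm.trans ?_
  -- the rank one update
  have hGu : IsUnit (Gm Q W).det := isUnit_iff_ne_zero.2 hG.det_pos.ne'
  obtain ⟨x, hx⟩ : ∃ x, x = (Gm Q W)⁻¹ *ᵥ q := ⟨_, rfl⟩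
  have hGx : (Gm Q W) *ᵥ x = q := by
    rw [hx, mulVec_mulVec, mul_nonsing_inv _ hGu, one_mulVec]
  have e1 : B.det = (Gm Q W).det * (1 + (δ : ℂ) * (star q ⬝ᵥ x)) := by
    rw [hB, vecMulVec_eq Unit, det_add_replicateCol_mul_replicateRow hGu]
    congr 1
    rw [det_unique, Matrix.add_apply, one_apply_eq, Matrix.mul_assoc, ← replicateCol_mulVec, replicateRow_mul_replicateCol_apply,
      mulVec_smul, ← hx, dotProduct_smul, smul_eq_mul]
  have e2 : star q ⬝ᵥ x = (qf (Gm Q W) x : ℂ) := by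
    have h3 : star x ⬝ᵥ q = (qf (Gm Q W) x : ℂ) := by
      rw [← hGx]
      nth_rewrite 1 [hGx]
      rw [← hGx, eq_qf hG.isHermitian]
    have h4 : star q ⬝ᵥ x = star (star x ⬝ᵥ q) := star_dotProduct q x
    rw [h4, h3, Complex.star_def, Complex.conj_ofReal]
  have h5 : qf (Gm Q W) x = qf Q x + qf Q (W *ᵥ x) := by
    unfold Gm
    rw [qf_add, qf_conj]
  have h6 : qf (Gm Q W) x ^ 2 ≤ qf Q (W *ᵥ x) := by
    have h7 := h2 (W *ᵥ x)
    rw [← hqv, e2, Complex.norm_real, Real.norm_eq_abs, sq_abs] at h7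
    exact h7
  have h8 : qf (Gm Q W) x ≤ 1 := by
    have h9 := qf_nonneg hQ x
    have h10 := qf_nonneg hQ (W *ᵥ x)
    nlinarith
  rw [e1, e2, mul_comm]
  refine mul_le_mul_of_nonneg_right ?_ hG.det_pos.le
  rw [← Complex.ofReal_mul, ← Complex.ofReal_one, ← Complex.ofReal_add, Complex.real_le_real]
  nlinarith

/-- **The determinant of a word.** -/
theorem norm_det_sq_le {Q : Matrix ι ι ℂ} (hQ : Q.PosDef) (W : Matrix ι ι ℂ) :
    ((‖(1 - W).det‖ ^ 2 : ℝ) : ℂ) * Q.det ≤ 2 ^ Fintype.card ι * (Gm Q W).det := by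
  have hG := Gm_posDef hQ W
  have e1 : ((1 - W)ᴴ * Q * (1 - W)).det = ((‖(1 - W).det‖ ^ 2 : ℝ) : ℂ) * Q.det := by
    rw [det_mul, det_mul, det_conjTranspose, ← Complex.normSq_eq_norm_sq, ← Complex.mul_conj, Complex.star_def]
    ring
  have e2 : (2 : ℂ) ^ Fintype.card ι * (Gm Q W).det = ((2 : ℂ) • Gm Q W).det := by
    rw [det_smul]
  rw [← e1, e2]
  have hP2 : ((2 : ℂ) • Gm Q W).PosDef := by
    have := hG.add_posSemidef hG.posSemidef
    rwa [← two_smul ℂ] at this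
  by_cases h0 : (1 - W).det = 0
  · rw [det_mul, h0, mul_zero]
    exact hP2.det_pos.le
  · have hu : IsUnit (1 - W) := (isUnit_iff_isUnit_det _).2 (isUnit_iff_ne_zero.2 h0)
    have hA : ((1 - W)ᴴ * Q * (1 - W)).PosDef := by
      refine (hQ.posSemidef.conjTranspose_mul_mul_same (1 - W)).posDef_iff_det_ne_zero.2 ?_
      rw [det_mul, det_mul, det_conjTranspose]
      exact mul_ne_zero (mul_ne_zero (star_ne_zero.2 h0) hQ.det_pos.ne') h0
    refine det_mono hA ?_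
    have e3 : (2 : ℂ) • Gm Q W - (1 - W)ᴴ * Q * (1 - W) = (1 + W)ᴴ * Q * (1 + W) := by
      rw [two_smul]
      unfold Gm
      rw [conjTranspose_sub, conjTranspose_add, conjTranspose_one]
      noncomm_ring
    rw [e3]
    exact hQ.posSemidef.conjTranspose_mul_mul_same (1 + W)

theorem det_word {α : Type*} {Q : Matrix ι ι ℂ} (hQ : Q.PosDef) (M : α → Matrix ι ι ℂ) {δ : ℝ} (hδ : 0 ≤ δ)
    (w : List α) (h : ∀ a ∈ w, ∃ l : ι → ℂ, (∀ v, qf Q (M a *ᵥ v) ≤ qf Q v + δ * ‖l ⬝ᵥ v‖ ^ 2) ∧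
      ∀ v, ‖l ⬝ᵥ v‖ ^ 2 ≤ qf Q v) :
    (Gm Q (w.map M).prod).det ≤ (((1 + δ) ^ w.length : ℝ) : ℂ) * (2 ^ Fintype.card ι * Q.det) := by
  induction w with
  | nil =>
    have : Gm Q (List.map M []).prod = (2 : ℂ) • Q := by
      unfold Gm
      rw [List.map_nil, List.prod_nil, conjTranspose_one, one_mul, mul_one, two_smul]
    rw [this, det_smul]
    simp
  | cons a u ih =>
    obtain ⟨l, h1, h2⟩ := h a (List.mem_cons_self)
    have h3 := step hQ hδ h1 h2 (u.map M).prod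
    rw [List.map_cons, List.prod_cons]
    refine h3.trans ?_
    have h4 := ih fun b hb => h b (List.mem_cons_of_mem _ hb)
    have h5 : (0 : ℂ) ≤ ((1 + δ : ℝ) : ℂ) := by
      rw [← Complex.ofReal_zero, Complex.real_le_real]
      linarith
    refine (mul_le_mul_of_nonneg_left h4 h5).trans (le_of_eq ?_)
    rw [List.length_cons, pow_succ]
    push_cast
    ring

/-- **Main inequality.** -/
theorem norm_det_le {α : Type*} {Q : Matrix ι ι ℂ} (hQ : Q.PosDef) (M : α → Matrix ι ι ℂ) {δ : ℝ} (hδ : 0 ≤ δ)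
    (w : List α) (h : ∀ a ∈ w, ∃ l : ι → ℂ, (∀ v, qf Q (M a *ᵥ v) ≤ qf Q v + δ * ‖l ⬝ᵥ v‖ ^ 2) ∧
      ∀ v, ‖l ⬝ᵥ v‖ ^ 2 ≤ qf Q v) :
    ‖(1 - (w.map M).prod).det‖ ^ 2 ≤ 4 ^ Fintype.card ι * (1 + δ) ^ w.length := by
  have h1 := norm_det_sq_le hQ (w.map M).prod
  have h2 := det_word hQ M hδ w h
  have h3 : (0 : ℂ) ≤ 2 ^ Fintype.card ι := by positivity
  have h4 := h1.trans (mul_le_mul_of_nonneg_left h2 h3)
  have hd := hQ.det_pos
  have e : (2 : ℂ) ^ Fintype.card ι * ((((1 + δ) ^ w.length : ℝ) : ℂ) * (2 ^ Fintype.card ι * Q.det)) =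
      ((4 ^ Fintype.card ι * (1 + δ) ^ w.length : ℝ) : ℂ) * Q.det := by
    push_cast
    rw [show (4 : ℂ) = 2 * 2 by norm_num, mul_pow]
    ring
  rw [e] at h4
  have h5 := le_of_mul_le_mul_right h4 hd
  exact_mod_cast h5

end Pool.Agent.Helper29.UD
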